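import Mathlib

namespace Pool.Agent.H.MP_ba200f_al

variable (F : Type) [Field F] {A V : Type} [AddCommGroup A] [Module F A] [AddCommGroup V]
  [Module F V]

/-- the sign of a parity -/
def sg (i : Bool) : F := if i then -1 else 1

/-- `x` is homogeneous of parity `i` for the parity involution `σ` -/
def Hom (σ : A → A) (i : Bool) (x : A) : Prop := σ x = sg F i • x

/-- an even operation that is supercommutative (`ε = 1`) or super-anticommutative (`ε = -1`) -/
def SC (ε : F) (σ : A → A) (m : A → A → A) : Prop :=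
  (∀ x y, σ (m x y) = m (σ x) (σ y)) ∧
  ∀ i j x y, Hom F σ i x → Hom F σ j y → m x y = (ε * sg F (i && j)) • m y x

/-- Jordan superalgebra -/
def IsJordan (σ : A → A) (m : A → A → A) : Prop :=
  (∀ x, σ (σ x) = x) ∧ SC F 1 σ m ∧
  ∀ a b c d x y z t, Hom F σ a x → Hom F σ b y → Hom F σ c z → Hom F σ d t →
    m (m (m x y) z) t + (sg F (b && c) * sg F (b && d) * sg F (c && d)) • m (m (m x t) z) y +
      (sg F (a && b) * sg F (a && c) * sg F (a && d) * sg F (c && d)) • m (m (m y t) z) x =
    m (m x y) (m z t) + sg F (b && c) • m (m x z) (m y t) +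
      (sg F (b && d) * sg F (c && d)) • m (m x t) (m y z)

/-- dot-bracket superalgebra -/
def IsDB (σ : A → A) (d b : A → A → A) : Prop :=
  (∀ x, σ (σ x) = x) ∧ (∀ x y z, d (d x y) z = d x (d y z)) ∧ SC F 1 σ d ∧ SC F (-1) σ b

variable {F}

/-- parity of the Kantor double -/
def kanP (σ : A → A) (x : A × A) : A × A := (σ x.1, -σ x.2)

/-- left multiplication of the Kantor double of `A` on the double of `V` -/
def kan (ρ : V → V) (d b : A → V → V) (x : A × A) (y : V × V) : V × V :=
  (d x.1 y.1 + b x.2 (ρ y.2), d x.1 y.2 + d x.2 (ρ y.1))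

/-- split null extension -/
def ext (m : A → A → A) (l : A → V → V) (r : V → A → V) (x y : A × V) : A × V :=
  (m x.1 y.1, l x.1 y.2 + r x.2 y.1)

end Pool.Agent.H.MP_ba200f_al
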