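import Mathlib
import Pool.Agent.H.MP_ba200f_al.D

set_option maxHeartbeats 1600000

namespace Pool.Agent.H.MP_ba200f_al

variable {F : Type} [Field F]

/-- parity -/
def σ0 (x : F × F) : F × F := (x.1, -x.2)
/-- dot -/
def d0 (x y : F × F) : F × F := (x.1 * y.1, x.1 * y.2 + x.2 * y.1)
/-- bracket -/
def b0 (x y : F × F) : F × F := (-(x.2 * y.2), 0)
/-- left action -/
def L0 (j : (F × F) × F × F) (m : F × F) : F × F :=
  (j.1.1 * m.1 + j.1.2 * m.2 - j.2.1 * m.2 + j.2.2 * m.1, j.1.1 * m.2 + j.1.2 * m.1)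
/-- right action -/
def R0 (m : F × F) (j : (F × F) × F × F) : F × F :=
  (j.1.1 * m.1 - j.1.2 * m.2 + j.2.1 * m.2 + j.2.2 * m.1, j.1.1 * m.2 + j.1.2 * m.1)

theorem ng (h2 : (2 : F) ≠ 0) (x : F) : -x = x ↔ x = 0 :=
  ⟨fun h => (mul_eq_zero.1 (by linear_combination -h : 2 * x = 0)).resolve_left h2,
    fun h => by simp [h]⟩

theorem ng' (h2 : (2 : F) ≠ 0) (x : F) : x = -x ↔ x = 0 := eq_comm.trans (ng h2 x)

theorem hom3 (h2 : (2 : F) ≠ 0) (i : Bool) (x : ((F × F) × F × F) × F × F)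
    (h : Hom F (Prod.map (kanP σ0) σ0) i x) :
    ∃ p q r, x = if i then (((0, p), q, 0), 0, r) else (((p, 0), 0, q), r, 0) := by
  obtain ⟨⟨⟨a, b⟩, c, d⟩, e, f⟩ := x
  cases i
  · simp [Hom, sg, kanP, σ0, ng h2] at h
    exact ⟨a, d, e, by simp [h]⟩
  · simp [Hom, sg, kanP, σ0, ng' h2] at h
    exact ⟨b, c, f, by simp [h]⟩

theorem jor (h2 : (2 : F) ≠ 0) :
    IsJordan F (Prod.map (kanP σ0) σ0) (ext (kan σ0 d0 b0) (L0 (F := F)) R0) := by
  refine ⟨fun x => by simp [kanP, σ0, Prod.map], ⟨fun x y => ?_, fun i j x y hx hy => ?_⟩,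
    fun a b c d x y z t hx hy hz ht => ?_⟩
  · simp only [Prod.map, kanP, σ0, ext, kan, d0, b0, L0, R0, Prod.mk_add_mk, Prod.neg_mk,
      Prod.mk.injEq]
    refine ⟨⟨⟨?_, ?_⟩, ?_, ?_⟩, ?_, ?_⟩ <;> ring
  · obtain ⟨x1, x2, x3, rfl⟩ := hom3 h2 _ _ hx
    obtain ⟨y1, y2, y3, rfl⟩ := hom3 h2 _ _ hy
    cases i <;> cases j <;>
    simp only [sg, σ0, ext, kan, d0, b0, L0, R0, Prod.mk_add_mk, Prod.smul_mk, smul_eq_mul,
      Prod.mk.injEq, Bool.false_eq_true, if_true, if_false, Bool.and_true, Bool.and_false,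
      mul_zero, zero_mul, add_zero, zero_add, neg_zero, sub_zero, zero_sub, mul_one, one_mul,
      neg_neg] <;>
    (repeat' apply And.intro) <;> first | trivial | ring
  · obtain ⟨x1, x2, x3, rfl⟩ := hom3 h2 _ _ hx
    obtain ⟨y1, y2, y3, rfl⟩ := hom3 h2 _ _ hy
    obtain ⟨z1, z2, z3, rfl⟩ := hom3 h2 _ _ hz
    obtain ⟨t1, t2, t3, rfl⟩ := hom3 h2 _ _ ht
    cases a <;> cases b <;> cases c <;> cases d <;>
    simp only [sg, σ0, ext, kan, d0, b0, L0, R0, Prod.mk_add_mk, Prod.smul_mk, smul_eq_mul,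
      Prod.mk.injEq, Bool.false_eq_true, if_true, if_false, Bool.and_true, Bool.and_false,
      mul_zero, zero_mul, add_zero, zero_add, neg_zero, sub_zero, zero_sub, mul_one, one_mul,
      neg_neg] <;>
    (repeat' apply And.intro) <;> first | trivial | ring

theorem jor0 (h2 : (2 : F) ≠ 0) : IsJordan F (kanP σ0) (kan σ0 (d0 (F := F)) b0) := by
  obtain ⟨h1, ⟨h3, h4⟩, h5⟩ := jor h2
  have hh : ∀ i x, Hom F (kanP σ0) i x →
      Hom F (Prod.map (kanP σ0) σ0) i ((x, 0) : ((F × F) × F × F) × F × F) := fun i x hx =>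
    Prod.ext hx (by simp [σ0])
  exact ⟨fun x => congrArg Prod.fst (h1 (x, 0)), ⟨fun x y => congrArg Prod.fst (h3 (x, 0) (y, 0)),
    fun i j x y hx hy => congrArg Prod.fst (h4 i j _ _ (hh _ _ hx) (hh _ _ hy))⟩,
    fun a b c d x y z t hx hy hz ht => congrArg Prod.fst
      (h5 a b c d _ _ _ _ (hh _ _ hx) (hh _ _ hy) (hh _ _ hz) (hh _ _ ht))⟩

theorem db (h2 : (2 : F) ≠ 0) : IsDB F σ0 (d0 (F := F)) b0 := by
  have hh : ∀ i (x : F × F), Hom F σ0 i x → ∃ p, x = if i then (0, p) else (p, 0) := by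
    rintro i ⟨a, b⟩ h
    cases i
    · simp [Hom, sg, σ0, ng h2] at h
      exact ⟨a, by simp [h]⟩
    · simp [Hom, sg, σ0, ng' h2] at h
      exact ⟨b, by simp [h]⟩
  refine ⟨fun x => by simp [σ0], fun x y z => ?_, ⟨fun x y => ?_, fun i j x y hx hy => ?_⟩,
    fun x y => by simp [σ0, b0], fun i j x y hx hy => ?_⟩
  · simp only [d0, Prod.mk.injEq]
    constructor <;> ring
  · simp only [d0, σ0, Prod.mk.injEq, true_and]
    ring
  · obtain ⟨p, rfl⟩ := hh _ _ hx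
    obtain ⟨q, rfl⟩ := hh _ _ hy
    cases i <;> cases j <;> simp [d0, sg, mul_comm]
  · obtain ⟨p, rfl⟩ := hh _ _ hx
    obtain ⟨q, rfl⟩ := hh _ _ hy
    cases i <;> cases j <;> simp [b0, sg, mul_comm]

theorem top2 (N : Submodule F (F × F)) (h1 : (1, 0) ∈ N) (h2 : (0, 1) ∈ N) : N = ⊤ :=
  eq_top_iff.2 fun x _ => by simpa using N.add_mem (N.smul_mem x.1 h1) (N.smul_mem x.2 h2)

theorem simple (I : Submodule F (F × F)) (h : ∀ a, ∀ x ∈ I, d0 a x ∈ I ∧ b0 a x ∈ I) :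
    I = ⊥ ∨ I = ⊤ := by
  refine or_iff_not_imp_left.2 fun hI => ?_
  obtain ⟨⟨p, q⟩, hx, h0⟩ := Submodule.exists_mem_ne_zero_of_ne_bot hI
  have h1 : ((0, 1) : F × F) ∈ I := by
    by_cases hp : p = 0
    · have hq : q ≠ 0 := fun hq => h0 (by simp [hp, hq])
      simpa [hp, hq] using I.smul_mem q⁻¹ hx
    · simpa [d0, hp] using (h (0, p⁻¹) _ hx).1
  exact top2 I (by simpa [b0] using (h (0, -1) _ h1).2) h1

theorem irr (N : Submodule F (F × F)) (h : ∀ j, ∀ m ∈ N, L0 j m ∈ N) : N = ⊥ ∨ N = ⊤ := by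
  refine or_iff_not_imp_left.2 fun hI => ?_
  obtain ⟨⟨p, q⟩, hx, h0⟩ := Submodule.exists_mem_ne_zero_of_ne_bot hI
  have h1 : ((1, 0) : F × F) ∈ N := by
    by_cases hp : p = 0
    · have hq : q ≠ 0 := fun hq => h0 (by simp [hp, hq])
      simpa [L0, hq] using h ((0, 0), -q⁻¹, 0) _ hx
    · simpa [L0, hp] using h ((0, 0), 0, p⁻¹) _ hx
  exact top2 N h1 (by simpa [L0] using h ((0, 1), 0, 0) _ h1)

end Pool.Agent.H.MP_ba200f_al
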