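import Mathlib
import Pool.Agent.H.MP_ba200f_al.A

set_option maxHeartbeats 400000

namespace Pool.Agent.H.MP_ba200f_al

variable {F : Type} [Field F]

/-- dot -/
def dL : F × F →ₗ[F] F × F →ₗ[F] F × F := LinearMap.mk₂ F d0
  (by intros; simp only [d0, Prod.fst_add, Prod.snd_add, Prod.mk_add_mk]; congr 1 <;> ring)
  (by intros; simp only [d0, Prod.smul_fst, Prod.smul_snd, Prod.smul_mk, smul_eq_mul]; congr 1 <;> ring)
  (by intros; simp only [d0, Prod.fst_add, Prod.snd_add, Prod.mk_add_mk]; congr 1 <;> ring)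
  (by intros; simp only [d0, Prod.smul_fst, Prod.smul_snd, Prod.smul_mk, smul_eq_mul]; congr 1 <;> ring)

/-- bracket -/
def bL : F × F →ₗ[F] F × F →ₗ[F] F × F := LinearMap.mk₂ F b0
  (by intros; simp only [b0, Prod.fst_add, Prod.snd_add, Prod.mk_add_mk]; congr 1 <;> ring)
  (by intros; simp only [b0, Prod.smul_fst, Prod.smul_snd, Prod.smul_mk, smul_eq_mul]; congr 1 <;> ring)
  (by intros; simp only [b0, Prod.fst_add, Prod.snd_add, Prod.mk_add_mk]; congr 1 <;> ring)
  (by intros; simp only [b0, Prod.smul_fst, Prod.smul_snd, Prod.smul_mk, smul_eq_mul]; congr 1 <;> ring)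

/-- left action -/
def LL : (F × F) × F × F →ₗ[F] F × F →ₗ[F] F × F := LinearMap.mk₂ F L0
  (by intros; simp only [L0, Prod.fst_add, Prod.snd_add, Prod.mk_add_mk]; congr 1 <;> ring)
  (by intros; simp only [L0, Prod.smul_fst, Prod.smul_snd, Prod.smul_mk, smul_eq_mul]; congr 1 <;> ring)
  (by intros; simp only [L0, Prod.fst_add, Prod.snd_add, Prod.mk_add_mk]; congr 1 <;> ring)
  (by intros; simp only [L0, Prod.smul_fst, Prod.smul_snd, Prod.smul_mk, smul_eq_mul]; congr 1 <;> ring)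

/-- right action -/
def RL : F × F →ₗ[F] (F × F) × F × F →ₗ[F] F × F := LinearMap.mk₂ F R0
  (by intros; simp only [R0, Prod.fst_add, Prod.snd_add, Prod.mk_add_mk]; congr 1 <;> ring)
  (by intros; simp only [R0, Prod.smul_fst, Prod.smul_snd, Prod.smul_mk, smul_eq_mul]; congr 1 <;> ring)
  (by intros; simp only [R0, Prod.fst_add, Prod.snd_add, Prod.mk_add_mk]; congr 1 <;> ring)
  (by intros; simp only [R0, Prod.smul_fst, Prod.smul_snd, Prod.smul_mk, smul_eq_mul]; congr 1 <;> ring)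

end Pool.Agent.H.MP_ba200f_al
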